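import Pool.Agent.helper51.QS.SpecB
import Mathlib.RingTheory.AdicCompletion.Completeness

namespace Pool.Agent.QS

open Pool.Agent.PC

universe u

theorem PS3_mem {k : Type u} [Field k] {n : ℕ} (s : Finset (Fin n)) :
    ∀ f : MvPowerSeries (Fin n) k,
      (∀ m : Fin n →₀ ℕ, (∀ i ∈ s, m i = 0) → MvPowerSeries.coeff m f = 0) →
      f ∈ Ideal.span (Set.range (MvPowerSeries.X : Fin n → MvPowerSeries (Fin n) k)) := by
  classical
  induction s using Finset.induction_on with
  | empty =>
    intro f h
    have h0 : f = 0 := by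
      ext m
      rw [h m (fun i hi => absurd hi (Finset.notMem_empty i))]
      simp
    rw [h0]
    exact Ideal.zero_mem _
  | insert a s ha ih =>
    intro f h
    let f₂ : MvPowerSeries (Fin n) k := fun m => if m a = 0 then 0 else MvPowerSeries.coeff m f
    have hf₂ : ∀ m, MvPowerSeries.coeff m f₂ = if m a = 0 then 0 else MvPowerSeries.coeff m f :=
      fun m => rfl
    have h1 : f₂ ∈ Ideal.span (Set.range (MvPowerSeries.X : Fin n → MvPowerSeries (Fin n) k)) := by
      have hd : (MvPowerSeries.X a : MvPowerSeries (Fin n) k) ∣ f₂ := by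
        rw [MvPowerSeries.X_dvd_iff]
        intro m hm
        rw [hf₂, if_pos hm]
      obtain ⟨c, hc⟩ := hd
      rw [hc]
      exact Ideal.mul_mem_right _ _ (Ideal.subset_span ⟨a, rfl⟩)
    have h2 : f - f₂ ∈
        Ideal.span (Set.range (MvPowerSeries.X : Fin n → MvPowerSeries (Fin n) k)) := by
      apply ih
      intro m hm
      rw [map_sub, hf₂]
      split_ifs with hma
      · rw [sub_zero]
        apply h
        intro i hi
        rcases Finset.mem_insert.1 hi with rfl | hi
        · exact hma
        · exact hm i hi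
      · rw [sub_self]
    have h3 := Ideal.add_mem _ h2 h1
    rwa [sub_add_cancel] at h3

theorem PS3_max (k : Type u) [Field k] (n : ℕ) :
    IsLocalRing.maximalIdeal (MvPowerSeries (Fin n) k) =
      Ideal.span (Set.range (MvPowerSeries.X : Fin n → MvPowerSeries (Fin n) k)) := by
  apply le_antisymm
  · intro f hf
    rw [IsLocalRing.mem_maximalIdeal, mem_nonunits_iff, MvPowerSeries.isUnit_iff_constantCoeff,
      isUnit_iff_ne_zero, not_not] at hf
    apply PS3_mem Finset.univ
    intro m hm
    have hm0 : m = 0 := by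
      ext i
      exact hm i (Finset.mem_univ i)
    rw [hm0, MvPowerSeries.coeff_zero_eq_constantCoeff_apply]
    exact hf
  · rw [Ideal.span_le]
    rintro _ ⟨i, rfl⟩
    show (MvPowerSeries.X i : MvPowerSeries (Fin n) k) ∈ IsLocalRing.maximalIdeal _
    rw [IsLocalRing.mem_maximalIdeal, mem_nonunits_iff, MvPowerSeries.isUnit_iff_constantCoeff,
      isUnit_iff_ne_zero, not_not]
    exact MvPowerSeries.constantCoeff_X i

theorem PS3 : PS3_stmt.{u} := by
  intro k _ n
  rw [PS3_max k n]
  infer_instance

end Pool.Agent.QS
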