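import Pool.Agent.helper32.QS.Spec

set_option autoImplicit false

namespace QS

theorem PRI_dvd {S Ω : Type} [Group S] [Finite Ω] [MulAction S Ω] (p : ℕ) (hp : p.Prime) (x : S)
    (hx : x ^ p = 1) (h0 : fx Ω x = 0) : p ∣ Nat.card Ω := by
  haveI := Fact.mk hp
  have hG : IsPGroup p (Subgroup.zpowers x) := by
    rintro ⟨y, hy⟩
    obtain ⟨k, rfl⟩ := Subgroup.mem_zpowers_iff.1 hy
    refine ⟨1, ?_⟩
    apply Subtype.ext
    simp only [pow_one, Subgroup.coe_pow, Subgroup.coe_one]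
    rw [← zpow_natCast, ← zpow_mul, mul_comm, zpow_mul, zpow_natCast, hx, one_zpow]
  have h1 := hG.card_modEq_card_fixedPoints Ω
  have h2 : Nat.card (MulAction.fixedPoints (Subgroup.zpowers x) Ω) = 0 := by
    have : IsEmpty {ω : Ω // x • ω = ω} := by
      rcases Nat.card_eq_zero.1 h0 with h | h
      · exact h
      · exact absurd (inferInstance : Finite {ω : Ω // x • ω = ω}) (not_finite_iff_infinite.2 h)
    have h3 : IsEmpty (MulAction.fixedPoints (Subgroup.zpowers x) Ω) := by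
      refine ⟨fun ω => this.false ⟨ω.1, ?_⟩⟩
      exact ω.2 ⟨x, Subgroup.mem_zpowers x⟩
    exact Nat.card_of_isEmpty
  rw [h2] at h1
  exact Nat.modEq_zero_iff_dvd.1 h1

theorem PRI_main (hPR1 : PR1_stmt) (hPRA : PRA_stmt) (hPRB : PRB_stmt) (hPNU : PNU_stmt)
    (p : ℕ) (hp : p.Prime) (hp5 : 5 ≤ p) (S Ω : Type) [Group S] [Finite S] [Finite Ω]
    [Nonempty Ω] [MulAction S Ω] [MulAction.IsPreprimitive S Ω] (hsol : Group.IsSolvable S)
    (hf : ∀ s : S, (∀ ω : Ω, s • ω = ω) → s = 1) (h2 : 2 ≤ Nat.card Ω) : PCon p S Ω := by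
  obtain ⟨q, a, hq, ha, hcard, hS, ht⟩ := hPR1 S Ω hsol hf h2
  have hx1 : ∀ x : S, (∀ ω : Ω, x ^ p • ω = ω) → x ^ p = 1 := fun x hx => hf _ hx
  have hxne : ∀ x : S, (∃ ω : Ω, x • ω ≠ ω) → x ≠ 1 := by
    rintro x ⟨ω, hω⟩ rfl
    exact hω (one_smul _ _)
  have key : ∀ x : S, (∀ ω : Ω, x ^ p • ω = ω) → (∃ ω : Ω, x • ω ≠ ω) → fx Ω x ≠ 0 →
      ∃ t : ℕ, 1 < t ∧ fx Ω x * t = q ^ a ∧ (p ≠ q → t % p = 1) := by
    intro x hx hne h0
    refine ht p x hp (hx1 x hx) (hxne x hne) ?_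
    have hne' : Nonempty {ω : Ω // x • ω = ω} := by
      by_contra h
      rw [not_nonempty_iff] at h
      exact h0 Nat.card_of_isEmpty
    obtain ⟨ω⟩ := hne'
    exact ⟨ω.1, ω.2⟩
  have hpt : ∀ f t : ℕ, 1 < t → f * t = q ^ a → (p ≠ q → t % p = 1) → p ≤ t := by
    intro f t h1 hft hmod
    by_cases hpq : p = q
    · subst hpq
      have hd : t ∣ p ^ a := ⟨f, by rw [← hft, mul_comm]⟩
      obtain ⟨b, _, rfl⟩ := (Nat.dvd_prime_pow hp).1 hd
      have hb : b ≠ 0 := by
        rintro rfl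
        simp at h1
      exact Nat.le_self_pow hb p
    · have := hmod hpq
      by_contra hlt
      rw [Nat.mod_eq_of_lt (by omega)] at this
      omega
  have hf0 : ∀ x : S, (∀ ω : Ω, x ^ p • ω = ω) → fx Ω x = 0 → p = q := by
    intro x hx h0
    have := PRI_dvd p hp x (hx1 x hx) h0
    rw [hcard] at this
    exact (Nat.prime_dvd_prime_iff_eq hp hq).1 (hp.dvd_of_dvd_pow this)
  by_cases hall : ∀ x : S, (∀ ω : Ω, x ^ p • ω = ω) → (∃ ω : Ω, x • ω ≠ ω) → fx Ω x + 1 < p
  · refine hPRA p hp hp5 S Ω ?_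
    intro x hx hne
    refine ⟨hall x hx hne, ?_⟩
    by_cases h0 : fx Ω x = 0
    · exact Or.inl h0
    · right
      obtain ⟨t, h1, hft, hmod⟩ := key x hx hne h0
      have := hpt _ t h1 hft hmod
      rw [hcard, ← hft, mul_comm 5]
      exact Nat.mul_le_mul_left _ (by omega)
  · push Not at hall
    obtain ⟨x0, hx0, hne0, hF⟩ := hall
    have h00 : fx Ω x0 ≠ 0 := by omega
    obtain ⟨t0, ht1, hft0, hmod0⟩ := key x0 hx0 hne0 h00
    by_cases hpq : p = q
    · subst hpq
      have ha2 : 2 ≤ a := by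
        by_contra hlt
        have ha1 : a = 1 := by omega
        subst ha1
        have hp' := hpt _ t0 ht1 hft0 hmod0
        rw [pow_one] at hft0
        have : 4 * t0 ≤ fx Ω x0 * t0 := Nat.mul_le_mul_right _ (by omega)
        omega
      have hp2 : 0 < p ^ 2 := pow_pos hp.pos 2
      refine hPRB p hp hp5 S Ω (((2 * p - 1) * p ^ a) / p ^ 2) ?_ ?_
      · intro x hx hne
        rw [Nat.le_div_iff_mul_le hp2, hcard]
        have hfk : p * fx Ω x ≤ p ^ a := by
          by_cases h0 : fx Ω x = 0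
          · simp [h0]
          · obtain ⟨t, h1, hft, hmod⟩ := key x hx hne h0
            have := hpt _ t h1 hft hmod
            rw [← hft, mul_comm p]
            exact Nat.mul_le_mul_left _ this
        have hle : fx Ω x ≤ p ^ a :=
          le_trans (Nat.le_mul_of_pos_left _ hp.pos) hfk
        have hd : (p ^ a - fx Ω x) / p * p ≤ p ^ a - fx Ω x := Nat.div_mul_le_self _ _
        obtain ⟨m, hm⟩ := Nat.exists_eq_add_of_le hle
        obtain ⟨r, rfl⟩ : ∃ r, p = r + 1 := ⟨p - 1, by omega⟩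
        have e1 : 2 * (r + 1) - 1 = 2 * r + 1 := by omega
        rw [e1]
        generalize hk : (r + 1) ^ a = k at *
        generalize fx Ω x = f at *
        subst hm
        have e2 : f + m - f = m := by omega
        rw [e2] at hd ⊢
        generalize m / (r + 1) = d at *
        have h3 : (r + 1) * (d * (r + 1)) ≤ (r + 1) * m := Nat.mul_le_mul_left _ hd
        have h4 : r * ((r + 1) * f) ≤ r * (f + m) := Nat.mul_le_mul_left _ hfk
        nlinarith [h3, h4]
      · rw [hcard]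
        refine lt_of_le_of_lt (Nat.mul_le_mul_right _ hS) ?_
        exact hPNU.2.2 p a _ hp hp5 ha2 (Nat.mul_div_le _ _)
    · have h64 : 64 ≤ q ^ a :=
        (hPNU.1 p q a (fx Ω x0) t0 hp hp5 hq hpq hft0 ht1 (hmod0 hpq)).2 hF
      refine hPRB p hp hp5 S Ω ((3 * q ^ a) / 11) ?_ ?_
      · intro x hx hne
        have h0 : fx Ω x ≠ 0 := fun h => hpq (hf0 x hx h)
        obtain ⟨t, h1, hft, hmod⟩ := key x hx hne h0
        have := (hPNU.1 p q a (fx Ω x) t hp hp5 hq hpq hft h1 (hmod hpq)).1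
        rw [Nat.le_div_iff_mul_le (by norm_num), hcard, mul_comm]
        exact this
      · rw [hcard]
        refine lt_of_le_of_lt (Nat.mul_le_mul_right _ hS) ?_
        exact hPNU.2.1 q a _ hq h64 (Nat.mul_div_le _ _)

theorem PRI (hPR1 : PR1_stmt) (hPRA : PRA_stmt) (hPRB : PRB_stmt) (hPNU : PNU_stmt) :
    PRI_stmt := by
  intro p hp hp5 S Ω _ _ _ _ _ _ hsol
  by_cases h2 : 2 ≤ Nat.card Ω
  · let φ : S →* Equiv.Perm Ω := MulAction.toPermHom S Ω
    haveI hs : Group.IsSolvable S := hsol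
    have hsol' : Group.IsSolvable φ.range :=
      Group.isSolvable_of_surjective (f := φ.rangeRestrict) φ.rangeRestrict_surjective
    have hact : ∀ (x : S) (ω : Ω), (φ.rangeRestrict x) • ω = x • ω := fun x ω => rfl
    let g : Ω →ₑ[φ.rangeRestrict] Ω := ⟨id, fun x ω => rfl⟩
    haveI : MulAction.IsPreprimitive φ.range Ω :=
      MulAction.IsPreprimitive.of_surjective (f := g) Function.surjective_id
    have hf : ∀ s : φ.range, (∀ ω : Ω, s • ω = ω) → s = 1 := by
      intro s hs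
      apply Subtype.ext
      apply Equiv.ext
      intro ω
      exact hs ω
    obtain ⟨Δ, h1, h3⟩ := PRI_main hPR1 hPRA hPRB hPNU p hp hp5 φ.range Ω hsol' hf h2
    refine ⟨Δ, h1, ?_⟩
    intro x hx hΔ ω
    have := h3 (φ.rangeRestrict x) (by
      intro ω
      rw [← map_pow]
      exact hx ω) hΔ ω
    exact this
  · have hc : Nat.card Ω = 1 := by
      have : 0 < Nat.card Ω := Nat.card_pos
      omega
    refine ⟨∅, by rw [hc]; simp, ?_⟩
    intro x _ _ ω
    haveI : Subsingleton Ω := (Nat.card_eq_one_iff_unique.1 hc).1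
    exact Subsingleton.elim _ _

end QS
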